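import Pool.Agent.Q240.SD.Stm

set_option autoImplicit false

/-!
# Project SD, job PK: the trial functions
-/

open Filter Topology Finset MeasureTheory

namespace Pool.Agent.Q223.SD

open Pool.Agent.Y23 (TT Fa N2 QQ Zt mu)
open Pool.Agent.Q240.EW (Bump Ps)
open Pool.Agent.Q240.SD

lemma Mn_bd (s t b a : ℝ) (c w : ℂ) (ha : 1 ≤ a) (hs : 2 ≤ s) (hsa : s ≤ a) (hb : 0 ≤ b)
    (hba : b ≤ a) (hc : ‖c‖ = 1) (hw : |w.re| ≤ 1 / 2) :
    ‖Mn s t b c w‖ ≤ 14 * a * Real.exp (5 * a / 8 + 1 / 4 - |w.im - t|) := by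
  have hre : (w - t * Complex.I).re = w.re := by simp
  have him : (w - t * Complex.I).im = w.im - t := by simp
  unfold Mn
  set z : ℂ := w - t * Complex.I with hz
  have hwr := abs_le.1 hw
  have h1 : ‖(Real.sqrt (2 * Real.pi * s) : ℂ)‖ ≤ 7 * a := by
    rw [Complex.norm_real, Real.norm_of_nonneg (Real.sqrt_nonneg _)]
    apply Real.sqrt_le_iff.2
    refine ⟨by positivity, ?_⟩
    have hp : Real.pi < 3.15 := Real.pi_lt_d2
    have h0 : 0 < Real.pi := Real.pi_pos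
    nlinarith [mul_le_mul hp.le hsa (by linarith) (by norm_num)]
  have h2 : ‖Complex.exp (s * z ^ 2 / 2)‖ ≤ Real.exp (a / 8 + 1 / 4 - |w.im - t|) := by
    rw [Complex.norm_exp]
    apply Real.exp_le_exp.2
    have hr : ((s : ℂ) * z ^ 2 / 2).re = s * (w.re ^ 2 - (w.im - t) ^ 2) / 2 := by
      have : ((s : ℂ) * z ^ 2 / 2) = ((s / 2 : ℝ) : ℂ) * z ^ 2 := by push_cast; ring
      rw [this, Complex.re_ofReal_mul, sq, Complex.mul_re, hre, him]
      ring
    rw [hr]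
    have e1 : w.re ^ 2 ≤ 1 / 4 := by nlinarith
    have e2 : s * w.re ^ 2 ≤ a / 4 := by nlinarith [sq_nonneg w.re]
    have e3 : 2 * (w.im - t) ^ 2 ≤ s * (w.im - t) ^ 2 := by nlinarith [sq_nonneg (w.im - t)]
    have e4 : |w.im - t| - 1 / 4 ≤ (w.im - t) ^ 2 := by
      have := sq_abs (w.im - t)
      nlinarith [sq_nonneg (|w.im - t| - 1 / 2)]
    linarith
  have h3 : ‖Complex.exp (b * z) + c * Complex.exp (-(b * z))‖ ≤ 2 * Real.exp (a / 2) := by
    refine (norm_add_le _ _).trans ?_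
    rw [norm_mul, hc, one_mul, Complex.norm_exp, Complex.norm_exp, Complex.neg_re,
      Complex.re_ofReal_mul, hre]
    have e1 : b * w.re ≤ a / 2 := by nlinarith
    have e2 : -(b * w.re) ≤ a / 2 := by nlinarith
    have := Real.exp_le_exp.2 e1
    have := Real.exp_le_exp.2 e2
    linarith
  rw [norm_mul, norm_mul]
  calc _ ≤ 7 * a * Real.exp (a / 8 + 1 / 4 - |w.im - t|) * (2 * Real.exp (a / 2)) := by gcongr
    _ = 14 * a * (Real.exp (a / 8 + 1 / 4 - |w.im - t|) * Real.exp (a / 2)) := by ring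
    _ = _ := by rw [← Real.exp_add]; ring_nf

theorem pk (h1 : S_Lo) (h2 : S_Tg) (h3 : S_Qp) (h4 : S_SzB) (h5 : S_Cv) (h6 : S_Psi) : S_Pk := by
  intro ψ δ hψ hδ hδ2
  obtain ⟨-, -, hP1, hP2, -⟩ := h6 ψ hψ
  obtain ⟨Cp, hCp, hP2⟩ := hP2 2
  obtain ⟨K, hK, h4⟩ := h4
  set ε : ℝ := δ / 16 with hε
  have hε0 : 0 < ε := by positivity
  set l : ℝ := ε ^ 2 / 8 with hl
  have hl0 : 0 < l := by positivity
  have hl1 : l ≤ δ / 2 := by rw [hl, hε]; nlinarith
  obtain ⟨C1, h1⟩ := h1 ψ δ l hψ hδ hδ2 hl0 (by linarith)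
  refine ⟨max C1 4, fun C hC => ?_⟩
  have hC1 : C1 ≤ C := le_trans (le_max_left _ _) hC
  have hC4 : 4 ≤ C := le_trans (le_max_right _ _) hC
  obtain ⟨A1, h1⟩ := h1 C hC1
  obtain ⟨A2, h2⟩ := h2 ε hε0 (by rw [hε]; linarith)
  obtain ⟨A3, h3⟩ := h3 ψ C hψ hC4
  refine ⟨max A1 (max A2 (max A3 (max (9 * C / 2) (max (2 / l) (max 10 (max (16 * K / δ ^ 2) Cp)))))),
    fun a ha ρ0 hρ0 hρT => ?_⟩
  simp only [max_le_iff] at ha
  obtain ⟨ha1, ha2, ha3, ha4, ha5, ha6, ha7, ha8⟩ := ha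
  -- the height
  have hC0 : 0 < C := by linarith
  have hT : 10 ≤ Ht C a := by
    unfold Ht
    have := Real.add_one_le_exp (2 * a / C)
    have e : 9 ≤ 2 * a / C := by rw [le_div_iff₀ hC0]; linarith
    linarith
  have hTa : Ht C a ≤ Real.exp (a / 2) := by
    unfold Ht
    apply Real.exp_le_exp.2
    rw [div_le_div_iff₀ hC0 (by norm_num)]
    nlinarith
  set T : ℝ := Ht C a with hTdef
  have hT0 : 0 < T := by linarith
  -- the packet
  obtain ⟨t, b, ht, hb1, hb2, hS⟩ := h1 a ha1 ρ0 (by linarith) hρT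
  have hb0 : 0 ≤ b := le_trans (by nlinarith) hb1
  have hba : b ≤ a := hb2.trans (by nlinarith)
  set s : ℝ := l * a with hs
  have hs2 : 2 ≤ s := by
    rw [div_le_iff₀ hl0] at ha5; rw [hs]; linarith
  have hsa : s ≤ a := by rw [hs]; nlinarith
  set S : ℂ := Complex.exp (-(2 * b * t * Complex.I)) * Sz ψ T s t (2 * b) with hSdef
  have hnS : ‖S‖ = ‖Sz ψ T s t (2 * b)‖ := by
    rw [hSdef, norm_mul, Complex.norm_exp]
    have : (-(2 * (b : ℂ) * t * Complex.I)).re = 0 := by simp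
    rw [this, Real.exp_zero, one_mul]
  set E : ℝ := Real.exp (2 * a * ((ρ0 : ℂ).re - 1 / 2 - δ / 2)) with hE
  have hE1 : Real.exp (a * δ) ≤ E := by
    apply Real.exp_le_exp.2
    nlinarith
  have hE0 : 1 ≤ E := le_trans (Real.one_le_exp (by positivity)) hE1
  have hSpos : 0 < ‖S‖ := by rw [hnS]; linarith
  have hSne : S ≠ 0 := norm_pos_iff.1 hSpos
  set c : ℂ := -(S / (‖S‖ : ℂ)) with hc
  have hnc : ‖c‖ = 1 := by
    rw [hc, norm_neg, norm_div, Complex.norm_real, norm_norm, div_self hSpos.ne']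
  have hcS : ((starRingEnd ℂ) c * S).re = -‖S‖ := by
    have : (starRingEnd ℂ) c * S = ((-‖S‖ : ℝ) : ℂ) := by
      rw [hc, map_neg, map_div₀, Complex.conj_ofReal]
      have h := Complex.conj_mul' S
      have hn : (‖S‖ : ℂ) ≠ 0 := by exact_mod_cast hSpos.ne'
      push_cast
      field_simp
      rw [h]
    rw [this, Complex.ofReal_re]
  obtain ⟨g, hg1, hg2, hg3⟩ := h2 a t b c ha2 hnc hb0 (hb2.trans (by rw [hε]; nlinarith))
  have hls : ε ^ 2 / 8 * a = s := by rw [hs]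
  rw [hls] at hg3
  refine ⟨g, hg1, hg2, ?_, ?_⟩
  · -- the value of the form
    have q := h3 a s t b c g ha3 hs2 hsa hb0 hba hnc hg1 hg3
    rw [← hTdef, ← hSdef, hcS] at q
    have hz := (h4 ψ T s t 0 hψ hT hs2 le_rfl).2
    have ht3 : Real.log (3 + |t|) ≤ a := by
      rw [Real.log_le_iff_le_exp (by positivity)]
      have e1 : |t| ≤ T + 1 := by
        have : |t| ≤ |t - (ρ0 : ℂ).im| + |(ρ0 : ℂ).im| := by
          have := abs_add_le (t - (ρ0 : ℂ).im) (ρ0 : ℂ).im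
          simpa using this
        linarith
      have e2 : Real.exp a = Real.exp (a / 2) * Real.exp (a / 2) := by rw [← Real.exp_add]; ring_nf
      have e3 := Real.add_one_le_exp (a / 2)
      nlinarith
    have hz2 : ‖Sz ψ T s t 0‖ ≤ E / 2 := by
      refine hz.trans ?_
      have e1 : Real.exp (s / 4 + 0 / 2) ≤ Real.exp (a * δ / 2) := by
        apply Real.exp_le_exp.2
        rw [hs]; nlinarith
      have e2 : K * a ≤ Real.exp (a * δ / 2) / 2 := by
        have e3 := Real.quadratic_le_exp_of_nonneg (x := a * δ / 2) (by positivity)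
        rw [div_le_iff₀ (by positivity)] at ha7
        have e5 := mul_le_mul_of_nonneg_left ha7 (show 0 ≤ a by linarith)
        have e6 : 0 ≤ a * δ := by positivity
        have e7 : (a * δ / 2) ^ 2 / 2 = (a * (a * δ ^ 2)) / 8 := by ring
        linarith
      have e4 : Real.exp (a * δ) = Real.exp (a * δ / 2) * Real.exp (a * δ / 2) := by
        rw [← Real.exp_add]; ring_nf
      calc K * Real.exp (s / 4 + 0 / 2) * Real.log (3 + |t|)
          ≤ K * Real.exp (a * δ / 2) * a :=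
            mul_le_mul (mul_le_mul_of_nonneg_left e1 hK.le) ht3 (Real.log_nonneg (by linarith [abs_nonneg t])) (by positivity)
        _ = (K * a) * Real.exp (a * δ / 2) := by ring
        _ ≤ (Real.exp (a * δ / 2) / 2) * Real.exp (a * δ / 2) := by gcongr
        _ = Real.exp (a * δ) / 2 := by rw [e4]; ring
        _ ≤ E / 2 := by linarith
    have hSE : E ≤ ‖S‖ := by rw [hnS]; exact hS
    have hx : Real.exp (-(10 * a)) ≤ 1 := Real.exp_le_one_iff.2 (by linarith)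
    have hpi : 3 < Real.pi := Real.pi_gt_three
    have hfin : Real.exp (2 * a * ((ρ0 : ℂ).re - 1 / 2 - 3 * δ / 4)) ≤ E := by
      apply Real.exp_le_exp.2
      nlinarith
    have hsum : ‖Sz ψ T s t 0‖ + -‖S‖ ≤ -(E / 2) := by linarith
    have h4s : 24 ≤ 4 * Real.pi * s := by nlinarith
    have : 4 * Real.pi * s * (‖Sz ψ T s t 0‖ + -‖S‖) ≤ -(12 * E) := by nlinarith
    linarith
  · -- the decay
    intro ρ
    set w : ℂ := (ρ : ℂ) - 1 / 2 with hw
    have hwre : |w.re| ≤ 1 / 2 := Pool.Agent.Y23.half_re ρ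
    have hwim : w.im = (ρ : ℂ).im := by rw [hw]; simp
    rw [(h5 ψ T hψ hT0).1 a g w (by linarith) hg1, norm_mul]
    have hdr : |(w / (T : ℂ)).re| ≤ 1 / 2 := by
      rw [Complex.div_ofReal_re, abs_div, abs_of_pos hT0]
      exact (div_le_self (abs_nonneg _) (by linarith)).trans hwre
    have p1 : ‖Ps ψ (w / T)‖ ≤ 2 := by
      refine (hP1 _).trans ?_
      refine (Real.exp_le_exp.2 hdr).trans ?_
      have e1 : Real.exp 1 = Real.exp (1 / 2) * Real.exp (1 / 2) := by rw [← Real.exp_add]; norm_num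
      have e2 := Real.exp_one_lt_d9
      have e3 := Real.exp_pos (1 / 2)
      nlinarith
    have p2 : ‖Ps ψ (w / T)‖ ≤ Real.exp (2 * a) / (1 + ‖w‖) ^ 2 := by
      refine (hP2 _ (hdr.trans (by norm_num))).trans ?_
      rw [norm_div, Complex.norm_real, Real.norm_of_nonneg hT0.le]
      rw [div_le_div_iff₀ (by positivity) (by positivity)]
      have e1 : (1 + ‖w‖) ^ 2 ≤ T ^ 2 * (1 + ‖w‖ / T) ^ 2 := by
        rw [← mul_pow]
        have : T * (1 + ‖w‖ / T) = T + ‖w‖ := by field_simp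
        rw [this]
        gcongr
        linarith
      have e2 : T ^ 2 ≤ Real.exp a := by
        calc T ^ 2 ≤ Real.exp (a / 2) ^ 2 := by gcongr
          _ = Real.exp a := by rw [← Real.exp_nat_mul]; ring_nf
      have e3 : Cp ≤ Real.exp a := by
        have := Real.add_one_le_exp a
        linarith
      have e4 : Real.exp (2 * a) = Real.exp a * Real.exp a := by rw [← Real.exp_add]; ring_nf
      calc Cp * (1 + ‖w‖) ^ 2 ≤ Real.exp a * (T ^ 2 * (1 + ‖w‖ / T) ^ 2) := by gcongr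
        _ ≤ Real.exp a * (Real.exp a * (1 + ‖w‖ / T) ^ 2) := by gcongr
        _ = Real.exp (2 * a) * (1 + ‖w‖ / T) ^ 2 := by rw [e4]; ring
    have hM := Mn_bd s t b a c w (by linarith) hs2 hsa hb0 hba hnc hwre
    have hTT : ‖TT g w‖ ≤ ‖Mn s t b c w‖ + Real.exp (-(15 * a)) := by
      have e1 := hg3 w (hwre.trans (by norm_num))
      have e2 := norm_add_le (TT g w - Mn s t b c w) (Mn s t b c w)
      rw [sub_add_cancel] at e2
      linarith
    have hv : |(ρ : ℂ).im - (ρ0 : ℂ).im| - 1 ≤ |w.im - t| := by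
      have e1 := abs_add_le (w.im - t) (t - (ρ0 : ℂ).im)
      rw [hwim] at e1 ⊢
      have e2 : (ρ : ℂ).im - t + (t - (ρ0 : ℂ).im) = (ρ : ℂ).im - (ρ0 : ℂ).im := by ring
      rw [e2] at e1
      linarith
    have f1 : ‖Ps ψ (w / T)‖ * ‖Mn s t b c w‖ ≤ Real.exp (3 * a) * Real.exp (-(1 * |(ρ : ℂ).im - (ρ0 : ℂ).im|)) := by
      have e1 : 28 * a ≤ Real.exp a := by
        have e1 : Real.exp a = Real.exp (a / 2) * Real.exp (a / 2) := by rw [← Real.exp_add]; ring_nf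
        have e2 := Real.quadratic_le_exp_of_nonneg (x := a / 2) (by linarith)
        have e3 : a + 1 + a ^ 2 / 8 ≤ Real.exp (a / 2) + a / 2 := by nlinarith
        have e4 : 18 + a / 2 ≤ Real.exp (a / 2) := by nlinarith
        nlinarith
      calc ‖Ps ψ (w / T)‖ * ‖Mn s t b c w‖ ≤ 2 * (14 * a * Real.exp (5 * a / 8 + 1 / 4 - |w.im - t|)) := by gcongr
        _ = (28 * a) * Real.exp (5 * a / 8 + 1 / 4 - |w.im - t|) := by ring
        _ ≤ Real.exp a * Real.exp (2 * a - |(ρ : ℂ).im - (ρ0 : ℂ).im|) :=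
            mul_le_mul e1 (Real.exp_le_exp.2 (by linarith)) (Real.exp_pos _).le (Real.exp_pos _).le
        _ = _ := by rw [← Real.exp_add, ← Real.exp_add]; ring_nf
    have f2 : ‖Ps ψ (w / T)‖ * Real.exp (-(15 * a)) ≤ Real.exp (3 * a) * (Real.exp (-(16 * a)) / (1 + ‖w‖) ^ 2) := by
      calc ‖Ps ψ (w / T)‖ * Real.exp (-(15 * a)) ≤ Real.exp (2 * a) / (1 + ‖w‖) ^ 2 * Real.exp (-(15 * a)) := by gcongr
        _ = (Real.exp (2 * a) * Real.exp (-(15 * a))) / (1 + ‖w‖) ^ 2 := by ring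
        _ = (Real.exp (3 * a) * Real.exp (-(16 * a))) / (1 + ‖w‖) ^ 2 := by
            rw [← Real.exp_add, ← Real.exp_add]; ring_nf
        _ = _ := by ring
    calc ‖Ps ψ (w / T)‖ * ‖TT g w‖ ≤ ‖Ps ψ (w / T)‖ * (‖Mn s t b c w‖ + Real.exp (-(15 * a))) := by gcongr
      _ = ‖Ps ψ (w / T)‖ * ‖Mn s t b c w‖ + ‖Ps ψ (w / T)‖ * Real.exp (-(15 * a)) := by ring
      _ ≤ _ := by rw [mul_add]; exact add_le_add f1 f2

end Pool.Agent.Q223.SD
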